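import Pool.Agent.Helper7_RU.Fin

/-!
# The nuclear dimension of the uniform Roe algebra of the plane is at most one

The plane `X = ℤ²` (with the sup metric, the word metric of the generating set `{-1,0,1}²`) has bounded
geometry and asymptotic dimension at least `2` (it is `2`), but the nuclear dimension of its uniform
Roe algebra is at most `1`. So the nuclear dimension of a uniform Roe algebra is not the asymptotic
dimension of the space, which answers the question of Winter and Zacharias in the negative.

## Proof

Given finitely many operators of the form `f λ_g` (`f` a function with finitely many values, `λ_g` a
translation), the plane is cut into bounded tiles such that every point `x` near the boundaries of the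
tiles has `n` private copies `σ_1(x), …, σ_n(x)` in the interiors of the tiles, at bounded distance,
with the same values of all the functions `f` around them, and far apart from each other (counting;
the boundaries of the tiles avoid the rare patterns). Averaging over a square gives contractions
`V_j : δ_x ↦ r⁻¹ ∑_v δ_{σ_j(x - v) + v}` which almost commute with the translations, commute with the functions `f`,
and are isometries with orthogonal ranges on the functions supported near the boundaries. Let `g` be
the function with value `1 - j/(n+1)` near the `j`-th copies and `1` elsewhere, interpolated in small
steps, and `h` a function that increases slowly, in `n+1` steps, from `0` at the boundaries of the tiles to `1`.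
A product `U` of slowly varying rotations of neighbouring copies is a unitary of the uniform Roe
algebra which almost commutes with the operators `a = f λ_g` and satisfies `U (g h) U^* ≈ g`: the ladder
of heights `1 - j/(n+1)` absorbs the removal of the boundary. So
`a ≈ U (g h) a (g h) U^* + (1-g²)^{1/2} a (1-g²)^{1/2}`, and `(g h) a (g h)` and `(1-g²)^{1/2} a (1-g²)^{1/2}` are block
diagonal with respect to the tiles, with finitely many entries, so they lie in finite-dimensional
algebras. These are two colours.

The lower bound for the asymptotic dimension is Sperner's lemma.
-/

set_option autoImplicit false

open Pool.Agent.W659.EC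

noncomputable section

namespace Pool.Agent.Results.MP_80b727_an.NucDimPlane

open Pool.Agent.Helper7_RU Pool.Agent.Helper7_RU.Fin

/-- The plane `ℤ²` has bounded geometry, its uniform Roe algebra has nuclear dimension at most `1`
and its asymptotic dimension is at least `2`; so the nuclear dimension of the uniform Roe algebra is not
equal to the asymptotic dimension for all countable discrete metric spaces of bounded geometry. -/
theorem result :
    (BddGeom (ℤ × ℤ) ∧ nucDim (CuStar (ℤ × ℤ)) ≤ 1 ∧ 2 ≤ asdim (ℤ × ℤ)) ∧
      ¬ ∀ (X : Type) [MetricSpace X] [Countable X] [DiscreteTopology X], BddGeom X →
        nucDim (CuStar X) = asdim X := by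
  refine ⟨⟨bddGeom_plane, main, R_ASD.t_ASD⟩, fun h => ?_⟩
  have h1 := h (ℤ × ℤ) bddGeom_plane
  have h2 : (2 : ℕ∞) ≤ 1 := R_ASD.t_ASD.trans (h1 ▸ main)
  exact absurd h2 (by decide)

end Pool.Agent.Results.MP_80b727_an.NucDimPlane
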